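import Mathlib
import Pool.Agent.Helper78.BW.Final

/-!
# The Bessel(3) process as a window of Brownian motion at a random time of finite expectation
-/

open MeasureTheory ProbabilityTheory Helper78.BW
open scoped ENNReal NNReal

namespace Pool.Agent.Results.MP_0f8574_pr.BesselWindow

universe u v

/-- Let `B` be a standard Brownian motion on an arbitrary probability space `(Ω, P)`. There is a
random time `T` on `Ω` with finite expectation whose window `X = (B_{T+u} - B_T; 0 ≤ u ≤ 1)` has
the law of the three-dimensional Bessel process: `E[F(X)] = E[F(R)]` for every three-dimensional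
Bessel process `R` on `[0, 1]`, on any probability space, and every measurable `F ≥ 0` on path
space. Such processes `R` exist, for instance on the threefold product of `(Ω, P)`. -/
theorem result {Ω : Type u} {mΩ : MeasurableSpace Ω} {P : Measure Ω} {B : ℝ≥0 → Ω → ℝ}
    (hB : IsBrownianReal B P) :
    (∃ R : (Fin 3 → Ω) → C(unitInterval, ℝ), Measurable R ∧
      IsBessel3 R (Measure.pi fun _ : Fin 3 => P)) ∧
    ∃ (T : Ω → ℝ≥0) (X : Ω → C(unitInterval, ℝ)), Measurable T ∧ Measurable X ∧
      ∫⁻ ω, (T ω : ℝ≥0∞) ∂P < ∞ ∧ IsWindow B T X P ∧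
      ∀ (Ω' : Type v) (mΩ' : MeasurableSpace Ω') (P' : Measure Ω')
        (R : Ω' → C(unitInterval, ℝ)), IsBessel3 R P' →
        ∀ F : C(unitInterval, ℝ) → ℝ≥0∞, Measurable F →
          ∫⁻ ω, F (X ω) ∂P = ∫⁻ ω, F (R ω) ∂P' := by
  refine ⟨exists_bessel3 hB, ?_⟩
  obtain ⟨T, hT, hfin, X, hX, hwin, hlaw⟩ := final.{u, v} hB (κ := fun x => x) measurable_id
    (fun hb w hw => exists_bessel hb hw)
  refine ⟨T, X, hT, hX, hfin, hwin, ?_⟩
  intro Ω' mΩ' P' R hR F hF
  rw [hlaw Ω' mΩ' P' R hR F hF]
  apply lintegral_congr_ae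
  filter_upwards [bessel3_pos hR] with ω hω
  rw [ENNReal.mul_inv_cancel (by simpa using hω) ENNReal.ofReal_ne_top, mul_one]

end Pool.Agent.Results.MP_0f8574_pr.BesselWindow
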